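import Mathlib

/-!
The groups `Grp` used to realise finite abelian p-groups as groups of power automorphisms.
-/

open Finset

namespace Pool.Agent.Lead.PAut

/-- the coefficient group `Q/Z` -/
abbrev T : Type := AddCircle (1 : ℚ)

variable {B : Type} [AddCommGroup B]

/-- all line sums over lines in the directions `a` of order `q` equal `χ a b`. -/
def Cond (q : ℕ) (χ : B → B →+ T) (b : B) (F : B → T) : Prop :=
  ∀ a : B, addOrderOf a = q → ∀ y, ∑ t ∈ range q, F (y + t • a) = χ a b

theorem Cond.add {q : ℕ} {χ : B → B →+ T} {b b' : B} {F F' : B → T} (h : Cond q χ b F)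
    (h' : Cond q χ b' F') (u : B) : Cond q χ (b + b') (fun x => F x + F' (x + u)) := by
  intro a ha y
  rw [Finset.sum_add_distrib, map_add, h a ha y]
  congr 1
  rw [← h' a ha (y + u)]
  refine Finset.sum_congr rfl fun t _ => ?_
  congr 1
  abel

theorem Cond.neg {q : ℕ} {χ : B → B →+ T} {b : B} {F : B → T} (h : Cond q χ b F) (u : B) :
    Cond q χ (-b) (fun x => - F (x + u)) := by
  intro a ha y
  rw [Finset.sum_neg_distrib, map_neg, ← h a ha (y + u)]
  congr 1
  refine Finset.sum_congr rfl fun t _ => ?_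
  congr 1
  abel

theorem Cond.zero {q : ℕ} {χ : B → B →+ T} : Cond q χ 0 (fun _ => 0) := by
  intro a _ y
  simp

/-- the group -/
@[ext] structure Grp (q : ℕ) (χ : B → B →+ T) where
  b : B
  F : B → T
  F' : B → T
  hF : Cond q χ b F
  hF' : Cond q χ b F'

namespace Grp

variable {q : ℕ} {χ : B → B →+ T}

instance : Mul (Grp q χ) :=
  ⟨fun x y => ⟨x.b + y.b, fun z => x.F z + y.F (z + x.b), fun z => x.F' z + y.F' (z + x.b),
    x.hF.add y.hF _, x.hF'.add y.hF' _⟩⟩

instance : One (Grp q χ) := ⟨⟨0, fun _ => 0, fun _ => 0, Cond.zero, Cond.zero⟩⟩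

instance : Inv (Grp q χ) :=
  ⟨fun x => ⟨-x.b, fun z => - x.F (z + -x.b), fun z => - x.F' (z + -x.b),
    x.hF.neg _, x.hF'.neg _⟩⟩

@[simp] theorem mul_b (x y : Grp q χ) : (x * y).b = x.b + y.b := rfl
@[simp] theorem mul_F (x y : Grp q χ) (z : B) : (x * y).F z = x.F z + y.F (z + x.b) := rfl
@[simp] theorem mul_F' (x y : Grp q χ) (z : B) : (x * y).F' z = x.F' z + y.F' (z + x.b) := rfl
@[simp] theorem one_b : (1 : Grp q χ).b = 0 := rfl
@[simp] theorem one_F (z : B) : (1 : Grp q χ).F z = 0 := rfl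
@[simp] theorem one_F' (z : B) : (1 : Grp q χ).F' z = 0 := rfl
@[simp] theorem inv_b (x : Grp q χ) : (x⁻¹).b = -x.b := rfl
@[simp] theorem inv_F (x : Grp q χ) (z : B) : (x⁻¹).F z = - x.F (z + -x.b) := rfl
@[simp] theorem inv_F' (x : Grp q χ) (z : B) : (x⁻¹).F' z = - x.F' (z + -x.b) := rfl

instance : Group (Grp q χ) :=
  Group.ofLeftAxioms
    (by
      intro x y z
      ext w
      · simp [add_assoc]
      · simp [add_assoc]
      · simp [add_assoc])
    (by
      intro x
      ext w
      · simp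
      · simp
      · simp)
    (by
      intro x
      ext w
      · simp
      · simp
      · simp)

@[simp] theorem pow_b (x : Grp q χ) (s : ℕ) : (x ^ s).b = s • x.b := by
  induction s with
  | zero => simp
  | succ s ih => rw [pow_succ, mul_b, ih, succ_nsmul]

theorem pow_F (x : Grp q χ) (s : ℕ) (y : B) : (x ^ s).F y = ∑ i ∈ range s, x.F (y + i • x.b) := by
  induction s with
  | zero => simp
  | succ s ih => rw [pow_succ, mul_F, ih, Finset.sum_range_succ, pow_b]

theorem pow_F' (x : Grp q χ) (s : ℕ) (y : B) :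
    (x ^ s).F' y = ∑ i ∈ range s, x.F' (y + i • x.b) := by
  induction s with
  | zero => simp
  | succ s ih => rw [pow_succ, mul_F', ih, Finset.sum_range_succ, pow_b]

/-- the element given by two functions with zero line sums. -/
def fn (f f' : B → T) (h : Cond q χ 0 f) (h' : Cond q χ 0 f') : Grp q χ := ⟨0, f, f', h, h'⟩

@[simp] theorem fn_b (f f' : B → T) (h : Cond q χ 0 f) (h' : Cond q χ 0 f') :
    (fn f f' h h').b = 0 := rfl
@[simp] theorem fn_F (f f' : B → T) (h : Cond q χ 0 f) (h' : Cond q χ 0 f') :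
    (fn f f' h h').F = f := rfl
@[simp] theorem fn_F' (f f' : B → T) (h : Cond q χ 0 f) (h' : Cond q χ 0 f') :
    (fn f f' h h').F' = f' := rfl

theorem cond_const {w : T} (hw : q • w = 0) : Cond q χ 0 (fun _ => w) := by
  intro a _ y
  simp [hw]

/-- the constant element -/
def cst (w : T) (hw : q • w = 0) : Grp q χ := ⟨0, fun _ => w, fun _ => w, cond_const hw, cond_const hw⟩

@[simp] theorem cst_b (w : T) (hw : q • w = 0) : (cst w hw : Grp q χ).b = 0 := rfl
@[simp] theorem cst_F (w : T) (hw : q • w = 0) (z : B) : (cst w hw : Grp q χ).F z = w := rfl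
@[simp] theorem cst_F' (w : T) (hw : q • w = 0) (z : B) : (cst w hw : Grp q χ).F' z = w := rfl

end Grp

end Pool.Agent.Lead.PAut
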