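import Pool.Agent.Lead.PAutMain

/-!
The data needed to realise `∏ i, ZMod (p ^ m i)` as a group of power automorphisms.
-/

open Finset

namespace Pool.Agent.Lead.PAut

/-- the group `B = ∏ i, ZMod (p ^ (K + m i))` -/
abbrev Bgrp (p K : ℕ) {r : ℕ} (m : Fin r → ℕ) : Type := ∀ i : Fin r, ZMod (p ^ (K + m i))

/-- the hypotheses used in the main argument -/
structure Data (p K n : ℕ) {r : ℕ} (m : Fin r → ℕ) (χ : Bgrp p K m → Bgrp p K m →+ T) : Prop where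
  hyp : Grp.Hyp p K n χ
  /-- every `n ≥ m i` -/
  hm : ∀ i, m i ≤ n
  /-- there is an `F` over every `b` -/
  ex : ∀ b, ∃ F, Cond (p ^ (K + 1)) χ b F
  /-- separation -/
  sep : ∀ b : Bgrp p K m, p ^ K • b ≠ 0 → ∀ s : ℕ, ¬ p ∣ s → s • b ≠ b →
    ∃ f, Cond (p ^ (K + 1)) χ 0 f ∧ ∃ v, f v = 0 ∧ f (v - b) = 0 ∧ f (v - s • b) ≠ 0
  /-- the generators `p ^ m i • e_i` of `B[p ^ K]` have `F`'s with a vanishing orbit sum -/
  van : ∀ i, ∃ F, Cond (p ^ (K + 1)) χ (Pi.single i ((p ^ m i : ℕ) : ZMod (p ^ (K + m i)))) F ∧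
    ∃ y0, ∑ t ∈ range (p ^ K), F (y0 + t • (Pi.single i ((p ^ m i : ℕ) : ZMod (p ^ (K + m i))))) = 0

end Pool.Agent.Lead.PAut
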