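import Pool.Agent.Lead.PAutGroup

/-!
Power automorphisms of the groups `Grp`.
-/

open Finset

namespace Pool.Agent.Lead.PAut

variable {B : Type} [AddCommGroup B]

theorem sum_range_mul'' {M : Type*} [AddCommMonoid M] (f : ℕ → M) (a b : ℕ) :
    ∑ t ∈ range (a * b), f t = ∑ t ∈ range a, ∑ s ∈ range b, f (t + a * s) := by
  induction b with
  | zero => simp
  | succ b ih =>
    rw [Nat.mul_succ, Finset.sum_range_add, ih]
    rw [← Finset.sum_add_distrib]
    refine Finset.sum_congr rfl fun t _ => ?_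
    rw [Finset.sum_range_succ, add_comm (a * b) t]

/-- the sum over a full orbit of `b`. -/
theorem Cond.full {p K j : ℕ} (hp : p.Prime) {χ : B → B →+ T} {b : B} {F : B → T}
    (h : Cond (p ^ (K + 1)) χ b F) (a : B) (ha : addOrderOf a = p ^ (K + 1 + j)) (y : B) :
    ∑ i ∈ range (p ^ (K + 1 + j)), F (y + i • a) = (p ^ j) • χ (p ^ j • a) b := by
  have hord : addOrderOf (p ^ j • a) = p ^ (K + 1) := by
    rw [addOrderOf_nsmul' _ (pow_pos hp.pos j).ne', ha]
    have : Nat.gcd (p ^ (K + 1 + j)) (p ^ j) = p ^ j :=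
      Nat.gcd_eq_right (pow_dvd_pow p (by omega))
    rw [this, pow_add, Nat.mul_div_cancel _ (pow_pos hp.pos j)]
  have : p ^ (K + 1 + j) = p ^ j * p ^ (K + 1) := by rw [← pow_add]; congr 1; omega
  rw [this, sum_range_mul'']
  have h1 : ∀ l ∈ range (p ^ j), ∑ s ∈ range (p ^ (K + 1)), F (y + (l + p ^ j * s) • a)
      = χ (p ^ j • a) b := by
    intro l _
    rw [← h _ hord (y + l • a)]
    refine Finset.sum_congr rfl fun s _ => ?_
    congr 1
    rw [add_nsmul, mul_comm, mul_nsmul', add_assoc]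
  rw [Finset.sum_congr rfl h1]
  simp

/-- sums over shifted ranges of full length are full sums -/
theorem sum_shift_period {o : ℕ} (f : B → T) (b : B) (c : T) 
    (h : ∀ y, ∑ i ∈ range o, f (y + i • b) = c) (s k : ℕ) (y : B) :
    ∑ i ∈ range (s + o * k), f (y + i • b) = ∑ i ∈ range s, f (y + i • b) + k • c := by
  induction k with
  | zero => simp
  | succ k ih =>
    rw [Nat.mul_succ, ← add_assoc, Finset.sum_range_add, ih, succ_nsmul, add_assoc]
    congr 2
    rw [← h (y + (s + o * k) • b)]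
    refine Finset.sum_congr rfl fun i _ => ?_
    congr 1
    rw [add_nsmul b (s + o * k) i, add_assoc]

namespace Grp

variable {q : ℕ} {χ : B → B →+ T}

theorem zpow_b0 (x : Grp q χ) (hx : x.b = 0) (m : ℤ) :
    (x ^ m).b = 0 ∧ (∀ y, (x ^ m).F y = m • x.F y) ∧ (∀ y, (x ^ m).F' y = m • x.F' y) := by
  cases m with
  | ofNat m =>
    simp only [Int.ofNat_eq_natCast, zpow_natCast, pow_b, hx, smul_zero, pow_F, pow_F',
      add_zero, sum_const, card_range, natCast_zsmul, true_and, implies_true, and_self]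
  | negSucc m =>
    simp only [zpow_negSucc, inv_b, inv_F, inv_F', pow_b, hx, smul_zero, neg_zero, pow_F, pow_F',
      add_zero, sum_const, card_range, negSucc_zsmul, true_and, implies_true, and_self]

/-- the data and hypotheses used below -/
structure Hyp (p K n : ℕ) (χ : B → B →+ T) : Prop where
  prime : p.Prime
  exp : ∀ b : B, p ^ (K + n) • b = 0
  hn : n ≤ K + 1
  ord : ∀ a, addOrderOf a = p ^ (K + 1) → addOrderOf (χ a a) = p ^ n

variable {p K n : ℕ}

theorem Hyp.exists_ord (H : Hyp p K n χ) (b : B) (hb : p ^ K • b ≠ 0) :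
    ∃ j, addOrderOf b = p ^ (K + 1 + j) := by
  have h1 : addOrderOf b ∣ p ^ (K + n) := addOrderOf_dvd_of_nsmul_eq_zero (H.exp b)
  obtain ⟨e, _, he⟩ := (Nat.dvd_prime_pow H.prime).1 h1
  have h2 : ¬ e ≤ K := by
    intro hle
    apply hb
    apply addOrderOf_dvd_iff_nsmul_eq_zero.1
    rw [he]
    exact pow_dvd_pow p hle
  exact ⟨e - (K + 1), by rw [he]; congr 1; omega⟩

/-- the basic fact: a power of `x` is a central constant of order `p ^ n`. -/
theorem Hyp.fact (H : Hyp p K n χ) (b : B) (hb : p ^ K • b ≠ 0) :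
    ∃ c : T, addOrderOf c = p ^ n ∧ (∀ (d : B) (F : B → T), Cond (p ^ (K + 1)) χ b F → ∀ y,
      ∑ i ∈ range (addOrderOf b), F (y + i • b) = c) ∧
      (∀ F : B → T, Cond (p ^ (K + 1)) χ 0 F → ∀ y,
      ∑ i ∈ range (addOrderOf b), F (y + i • b) = 0) := by
  obtain ⟨j, hj⟩ := H.exists_ord b hb
  refine ⟨χ (p ^ j • b) (p ^ j • b), ?_, ?_, ?_⟩
  · apply H.ord
    rw [addOrderOf_nsmul' _ (pow_pos H.prime.pos j).ne', hj]
    have : Nat.gcd (p ^ (K + 1 + j)) (p ^ j) = p ^ j :=
      Nat.gcd_eq_right (pow_dvd_pow p (by omega))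
    rw [this, pow_add, Nat.mul_div_cancel _ (pow_pos H.prime.pos j)]
  · intro _ F hF y
    rw [hj, hF.full H.prime b hj y, map_nsmul]
  · intro F hF y
    rw [hj, hF.full H.prime b hj y, map_zero, smul_zero]

/-- the comparison of `φ x`, `φ f`, `φ (x * f)`. -/
theorem Hyp.compare (H : Hyp p K n χ) (φ : MulAut (Grp (p ^ (K + 1)) χ))
    (hφ : ∀ x, φ x ∈ Subgroup.zpowers x) (b : B) (hb : p ^ K • b ≠ 0)
    (x : Grp (p ^ (K + 1)) χ) (hx : x.b = b) (s : ℕ) (hs : φ x = x ^ s)
    (f : Grp (p ^ (K + 1)) χ) (hf : f.b = 0) :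
    ∃ (m : ℤ) (δ : T), φ f = f ^ m ∧
      (∀ y, m • f.F (y + s • b) = δ + ∑ i ∈ range s, f.F (y + i • b + b)) ∧
      (∀ y, m • f.F' (y + s • b) = δ + ∑ i ∈ range s, f.F' (y + i • b + b)) := by
  obtain ⟨c, hc, hc1, hc2⟩ := H.fact b hb
  have hfin : ∀ z : Grp (p ^ (K + 1)) χ, z.b = b → IsOfFinOrder z := by
    intro z hz
    rw [isOfFinOrder_iff_pow_eq_one]
    have hob : 0 < addOrderOf b := by
      rw [addOrderOf_pos_iff, isOfFinAddOrder_iff_nsmul_eq_zero]
      exact ⟨p ^ (K + n), pow_pos H.prime.pos _, H.exp b⟩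
    refine ⟨addOrderOf b * p ^ n, Nat.mul_pos hob (pow_pos H.prime.pos n), ?_⟩
    have hcn : p ^ n • c = 0 := by rw [← hc]; exact addOrderOf_nsmul_eq_zero c
    ext y
    · rw [pow_b, hz, mul_comm, mul_nsmul', addOrderOf_nsmul_eq_zero]; simp
    · rw [pow_F, hz]
      have := sum_shift_period z.F b c (hc1 b z.F (hz ▸ z.hF)) 0 (p ^ n) y
      simp only [zero_add, range_zero, sum_empty] at this
      rw [this, hcn]; rfl
    · rw [pow_F', hz]
      have := sum_shift_period z.F' b c (hc1 b z.F' (hz ▸ z.hF')) 0 (p ^ n) y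
      simp only [zero_add, range_zero, sum_empty] at this
      rw [this, hcn]; rfl
  have hxf : (x * f).b = b := by rw [mul_b, hx, hf, add_zero]
  obtain ⟨m, hm⟩ := Subgroup.mem_zpowers_iff.1 (hφ f)
  obtain ⟨s', hs'⟩ := ((hfin _ hxf).mem_powers_iff_mem_zpowers).2 (hφ (x * f))
  have hs'' : φ (x * f) = (x * f) ^ s' := hs'.symm
  have key : x ^ s * f ^ m = (x * f) ^ s' := by
    rw [← hs'', map_mul, hs, hm]
  obtain ⟨hfm1, hfm2, hfm3⟩ := zpow_b0 f hf m
  have hsb : s • b = s' • b := by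
    have := congrArg Grp.b key
    rw [mul_b, pow_b, pow_b, hfm1, hx, hxf, add_zero] at this
    exact this
  obtain ⟨k, k', hkk⟩ : ∃ k k', s + addOrderOf b * k = s' + addOrderOf b * k' := by
    have hmod : s ≡ s' [MOD addOrderOf b] := by
      rwa [← nsmul_eq_nsmul_iff_modEq]
    rcases le_total s s' with hle | hle
    · obtain ⟨k, hk⟩ := (Nat.modEq_iff_dvd' hle).1 hmod
      exact ⟨k, 0, by omega⟩
    · obtain ⟨k, hk⟩ := (Nat.modEq_iff_dvd' hle).1 hmod.symm
      exact ⟨0, k, by omega⟩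
  have aux : ∀ (G f1 : B → T), Cond (p ^ (K + 1)) χ b G → Cond (p ^ (K + 1)) χ 0 f1 → 
      ∀ y, (∑ i ∈ range s, G (y + i • b)) + m • f1 (y + s • b)
        = ∑ i ∈ range s', (G (y + i • b) + f1 (y + i • b + b)) →
      m • f1 (y + s • b) = (k • c - k' • c) + ∑ i ∈ range s, f1 (y + i • b + b) := by
    intro G f1 hG hf1 y hy
    have e1 := sum_shift_period G b c (hc1 b G hG) s k y
    have e2 := sum_shift_period G b c (hc1 b G hG) s' k' y
    have g1 := sum_shift_period f1 b 0 (hc2 f1 hf1) s k (y + b)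
    have g2 := sum_shift_period f1 b 0 (hc2 f1 hf1) s' k' (y + b)
    rw [hkk] at e1 g1
    rw [e1] at e2
    rw [g1] at g2
    simp only [smul_zero, add_zero] at g2
    have g3 : ∑ i ∈ range s, f1 (y + i • b + b) = ∑ i ∈ range s', f1 (y + i • b + b) := by
      have : ∀ i : ℕ, y + i • b + b = y + b + i • b := fun i => by abel
      simp only [this]
      exact g2
    rw [Finset.sum_add_distrib, ← g3] at hy
    have e3 : ∑ i ∈ range s', G (y + i • b) = ∑ i ∈ range s, G (y + i • b) + k • c - k' • c := by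
      rw [e2]; abel
    rw [e3] at hy
    have : m • f1 (y + s • b) = (∑ i ∈ range s, G (y + i • b) + m • f1 (y + s • b)) -
      ∑ i ∈ range s, G (y + i • b) := by abel
    rw [this, hy]; abel
  refine ⟨m, k • c - k' • c, hm.symm, ?_, ?_⟩
  · intro y
    apply aux x.F f.F (hx ▸ x.hF) (hf ▸ f.hF) y
    have := congrFun (congrArg Grp.F key) y
    rw [mul_F, pow_F, pow_F, pow_b, hfm2, hx, hxf] at this
    simpa [hx] using this
  · intro y
    apply aux x.F' f.F' (hx ▸ x.hF') (hf ▸ f.hF') y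
    have := congrFun (congrArg Grp.F' key) y
    rw [mul_F', pow_F', pow_F', pow_b, hfm3, hx, hxf] at this
    simpa [hx] using this

end Grp

end Pool.Agent.Lead.PAut
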