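import Pool.Agent.Lead.PAutMain

/-!
Every power automorphism of `Grp` is a shift by a homomorphism `B → T`.
-/

open Finset

namespace Pool.Agent.Lead.PAut.Grp

variable {B : Type} [AddCommGroup B] {p K n : ℕ} {χ : B → B →+ T}

/-- `φ` maps every subgroup onto itself -/
def IsPow {G : Type} [Group G] (φ : MulAut G) : Prop :=
  ∀ H : Subgroup G, H.map φ.toMonoidHom = H

theorem IsPow.mem {G : Type} [Group G] {φ : MulAut G} (h : IsPow φ) (x : G) :
    φ x ∈ Subgroup.zpowers x := by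
  have h1 := h (Subgroup.zpowers x)
  rw [MonoidHom.map_zpowers] at h1
  rw [← h1]
  exact Subgroup.mem_zpowers _

theorem IsPow.mem' {G : Type} [Group G] {φ : MulAut G} (h : IsPow φ) (x : G) :
    x ∈ Subgroup.zpowers (φ x) := by
  have h1 := h (Subgroup.zpowers x)
  rw [MonoidHom.map_zpowers] at h1
  have h2 : x ∈ Subgroup.zpowers x := Subgroup.mem_zpowers x
  rw [← h1] at h2
  exact h2

theorem zpow_b {q : ℕ} {χ : B → B →+ T} (z : Grp q χ) (t : ℤ) : (z ^ t).b = t • z.b := by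
  cases t with
  | ofNat t => simp
  | negSucc t => simp [negSucc_zsmul]

theorem Hyp.finite (H : Hyp p K n χ) (z : Grp (p ^ (K + 1)) χ) (hb : p ^ K • z.b ≠ 0) :
    IsOfFinOrder z := by
  obtain ⟨c, hc, hc1, hc2⟩ := H.fact z.b hb
  rw [isOfFinOrder_iff_pow_eq_one]
  have hob : 0 < addOrderOf z.b := by
    rw [addOrderOf_pos_iff, isOfFinAddOrder_iff_nsmul_eq_zero]
    exact ⟨p ^ (K + n), pow_pos H.prime.pos _, H.exp z.b⟩
  refine ⟨addOrderOf z.b * p ^ n, Nat.mul_pos hob (pow_pos H.prime.pos n), ?_⟩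
  have hcn : p ^ n • c = 0 := by rw [← hc]; exact addOrderOf_nsmul_eq_zero c
  ext y
  · rw [pow_b, mul_comm, mul_nsmul', addOrderOf_nsmul_eq_zero]; simp
  · rw [pow_F]
    have := sum_shift_period z.F z.b c (hc1 z.b z.F z.hF) 0 (p ^ n) y
    simp only [zero_add, range_zero, sum_empty] at this
    rw [this, hcn]; rfl
  · rw [pow_F']
    have := sum_shift_period z.F' z.b c (hc1 z.b z.F' z.hF') 0 (p ^ n) y
    simp only [zero_add, range_zero, sum_empty] at this
    rw [this, hcn]; rfl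

theorem Hyp.exists_pow (H : Hyp p K n χ) (φ : MulAut (Grp (p ^ (K + 1)) χ)) (hφ : IsPow φ)
    (x : Grp (p ^ (K + 1)) χ) (hb : p ^ K • x.b ≠ 0) : ∃ s : ℕ, ¬ p ∣ s ∧ φ x = x ^ s := by
  obtain ⟨s, hs⟩ := ((H.finite x hb).mem_powers_iff_mem_zpowers).2 (hφ.mem x)
  have hs' : φ x = x ^ s := hs.symm
  refine ⟨s, ?_, hs'⟩
  intro hps
  obtain ⟨t, ht⟩ := Subgroup.mem_zpowers_iff.1 (hφ.mem' x)
  obtain ⟨j, hj⟩ := H.exists_ord x.b hb
  have h1 : x.b ∈ AddSubgroup.zmultiples (s • x.b) := by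
    rw [AddSubgroup.mem_zmultiples_iff]
    refine ⟨t, ?_⟩
    rw [← pow_b x s, ← hs', ← zpow_b, ht]
  rw [mem_zmultiples_nsmul_iff, hj] at h1
  have h2 : p ∣ 1 := by
    rw [← h1]
    exact Nat.dvd_gcd hps (dvd_pow_self p (by omega))
  exact H.prime.one_lt.ne' (Nat.dvd_one.1 h2)

/-- separation hypothesis -/
def Sep (p K : ℕ) (χ : B → B →+ T) : Prop :=
  ∀ b : B, p ^ K • b ≠ 0 → ∀ s : ℕ, ¬ p ∣ s → s • b ≠ b →
    ∃ f, Cond (p ^ (K + 1)) χ 0 f ∧ ∃ v, f v = 0 ∧ f (v - b) = 0 ∧ f (v - s • b) ≠ 0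

theorem Hyp.smul_eq (H : Hyp p K n χ) (hsep : Sep p K χ) (φ : MulAut (Grp (p ^ (K + 1)) χ))
    (hφ : IsPow φ) (x : Grp (p ^ (K + 1)) χ) (hb : p ^ K • x.b ≠ 0) (s : ℕ) (hps : ¬ p ∣ s)
    (hs : φ x = x ^ s) : s • x.b = x.b := by
  by_contra hne
  obtain ⟨f, hf, v, h1, h2, h3⟩ := hsep x.b hb s hps hne
  obtain ⟨m, δ, _, e1, e2⟩ := H.compare φ hφ.mem x.b hb x rfl s hs (fn f (fun _ => 0) hf Cond.zero)
    rfl
  have hδ : δ = 0 := by
    have := e2 0
    simpa using this.symm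
  subst hδ
  have a1 := e1 (v - s • x.b)
  have a2 := e1 (v - s • x.b - x.b)
  simp only [fn_F, zero_add] at a1 a2
  have b1 : v - s • x.b + s • x.b = v := by abel
  have b2 : v - s • x.b - x.b + s • x.b = v - x.b := by abel
  rw [b1, h1] at a1
  rw [b2, h2] at a2
  have a3 : ∑ i ∈ range s, f (v - s • x.b + (i + 1) • x.b) -
      ∑ i ∈ range s, f (v - s • x.b + i • x.b) = f v - f (v - s • x.b) := by
    rw [← Finset.sum_sub_distrib, Finset.sum_range_sub (fun i : ℕ => f (v - s • x.b + i • x.b))]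
    simp only [zero_smul, add_zero, b1]
  have a4 : ∑ i ∈ range s, f (v - s • x.b + (i + 1) • x.b) = 0 := by
    rw [smul_zero] at a1
    rw [a1]
    refine Finset.sum_congr rfl fun i _ => ?_
    congr 1
    rw [succ_nsmul]; abel
  have a5 : ∑ i ∈ range s, f (v - s • x.b + i • x.b) = 0 := by
    rw [smul_zero] at a2
    rw [a2]
    refine Finset.sum_congr rfl fun i _ => ?_
    congr 1
    abel
  rw [a4, a5, h1] at a3
  apply h3
  have := a3.symm
  rwa [sub_self, zero_sub, neg_eq_zero] at this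

theorem exists_one_add {b : B} {s o : ℕ} (ho : addOrderOf b = o) (ho1 : 1 < o)
    (hs : s • b = b) : ∃ k, s = 1 + o * k := by
  have h1 : s • b = 1 • b := by rw [hs, one_nsmul]
  rw [nsmul_eq_nsmul_iff_modEq, ho] at h1
  have hs0 : 1 ≤ s := by
    rcases Nat.eq_zero_or_pos s with h | h
    · subst h
      exfalso
      have := h1
      rw [Nat.ModEq, Nat.zero_mod, Nat.mod_eq_of_lt ho1] at this
      exact absurd this (by norm_num)
    · exact h
  obtain ⟨k, hk⟩ := (Nat.modEq_iff_dvd' hs0).1 h1.symm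
  exact ⟨k, by omega⟩

theorem Hyp.one_lt_ord (H : Hyp p K n χ) {b : B} (hb : p ^ K • b ≠ 0) : 1 < addOrderOf b := by
  obtain ⟨j, hj⟩ := H.exists_ord b hb
  rw [hj]
  exact Nat.one_lt_pow (by omega) H.prime.one_lt

/-- `φ` fixes the kernel `N` pointwise. -/
theorem Hyp.fix (H : Hyp p K n χ) (hsep : Sep p K χ) (φ : MulAut (Grp (p ^ (K + 1)) χ))
    (hφ : IsPow φ) (x : Grp (p ^ (K + 1)) χ) (hb : p ^ K • x.b ≠ 0)
    (f : Grp (p ^ (K + 1)) χ) (hf : f.b = 0) : φ f = f := by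
  obtain ⟨s, hps, hs⟩ := H.exists_pow φ hφ x hb
  have hsb := H.smul_eq hsep φ hφ x hb s hps hs
  obtain ⟨k, hk⟩ := exists_one_add rfl (H.one_lt_ord hb) hsb
  obtain ⟨c, hc, hc1, hc2⟩ := H.fact x.b hb
  have key : ∀ (g : B → T), Cond (p ^ (K + 1)) χ 0 g → ∀ y, 
      ∑ i ∈ range s, g (y + i • x.b + x.b) = g (y + x.b) := by
    intro g hg y
    have := sum_shift_period g x.b 0 (hc2 g hg) 1 k (y + x.b)
    rw [← hk] at this
    simp only [range_one, sum_singleton, zero_smul, add_zero, smul_zero] at this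
    rw [← this]
    refine Finset.sum_congr rfl fun i _ => ?_
    congr 1; abel
  have hf1 : Cond (p ^ (K + 1)) χ 0 f.F := hf ▸ f.hF
  have hf2 : Cond (p ^ (K + 1)) χ 0 f.F' := hf ▸ f.hF'
  have fix1 : φ (fn f.F (fun _ => 0) hf1 Cond.zero) = fn f.F (fun _ => 0) hf1 Cond.zero := by
    obtain ⟨m, δ, hm, e1, e2⟩ := H.compare φ hφ.mem x.b hb x rfl s hs
      (fn f.F (fun _ => 0) hf1 Cond.zero) rfl
    have hδ : δ = 0 := by
      have := e2 0
      simpa using this.symm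
    subst hδ
    obtain ⟨z1, z2, z3⟩ := zpow_b0 (fn f.F (fun _ => 0) hf1 Cond.zero) rfl m
    rw [hm]
    ext y
    · exact z1
    · rw [z2]
      have := e1 (y - x.b)
      rw [hsb] at this
      simp only [fn_F, zero_add] at this
      rw [key f.F hf1] at this
      simpa using this
    · rw [z3]; simp
  have fix2 : φ (fn (fun _ => 0) f.F' Cond.zero hf2) = fn (fun _ => 0) f.F' Cond.zero hf2 := by
    obtain ⟨m, δ, hm, e1, e2⟩ := H.compare φ hφ.mem x.b hb x rfl s hs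
      (fn (fun _ => 0) f.F' Cond.zero hf2) rfl
    have hδ : δ = 0 := by
      have := e1 0
      simpa using this.symm
    subst hδ
    obtain ⟨z1, z2, z3⟩ := zpow_b0 (fn (fun _ => 0) f.F' Cond.zero hf2) rfl m
    rw [hm]
    ext y
    · exact z1
    · rw [z2]; simp
    · rw [z3]
      have := e2 (y - x.b)
      rw [hsb] at this
      simp only [fn_F', zero_add] at this
      rw [key f.F' hf2] at this
      simpa using this
  have hfe : f = fn f.F (fun _ => 0) hf1 Cond.zero * fn (fun _ => 0) f.F' Cond.zero hf2 := by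
    ext y
    · simp [hf]
    · simp
    · simp
  rw [hfe, map_mul, fix1, fix2]

/-- `y` is `x` shifted by the constant `w`. -/
def IsShift {q : ℕ} {χ : B → B →+ T} (w : T) (x y : Grp q χ) : Prop :=
  y.b = x.b ∧ (∀ z, y.F z = x.F z + w) ∧ (∀ z, y.F' z = x.F' z + w)

theorem Hyp.shift1 (H : Hyp p K n χ) (hsep : Sep p K χ) (φ : MulAut (Grp (p ^ (K + 1)) χ))
    (hφ : IsPow φ) (x : Grp (p ^ (K + 1)) χ) (hb : p ^ K • x.b ≠ 0) :
    ∃ w : T, IsShift w x (φ x) := by
  obtain ⟨s, hps, hs⟩ := H.exists_pow φ hφ x hb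
  have hsb := H.smul_eq hsep φ hφ x hb s hps hs
  obtain ⟨k, hk⟩ := exists_one_add rfl (H.one_lt_ord hb) hsb
  obtain ⟨c, hc, hc1, hc2⟩ := H.fact x.b hb
  refine ⟨k • c, ?_, ?_, ?_⟩
  · rw [hs, pow_b, hsb]
  · intro z
    rw [hs, pow_F, hk, sum_shift_period x.F x.b c (hc1 x.b x.F x.hF) 1 k z]
    simp
  · intro z
    rw [hs, pow_F', hk, sum_shift_period x.F' x.b c (hc1 x.b x.F' x.hF') 1 k z]
    simp

theorem Hyp.shift (H : Hyp p K n χ) (hsep : Sep p K χ) (φ : MulAut (Grp (p ^ (K + 1)) χ))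
    (hφ : IsPow φ) (x0 : Grp (p ^ (K + 1)) χ) (hb : p ^ K • x0.b ≠ 0) (x : Grp (p ^ (K + 1)) χ) :
    ∃ w : T, IsShift w x (φ x) := by
  by_cases hx : p ^ K • x.b = 0
  · have h1 : p ^ K • (x * x0).b ≠ 0 := by
      rw [mul_b, smul_add, hx, zero_add]; exact hb
    obtain ⟨w1, a1, a2, a3⟩ := H.shift1 hsep φ hφ (x * x0) h1
    obtain ⟨w2, b1, b2, b3⟩ := H.shift1 hsep φ hφ x0 hb
    have hxb : (φ x).b = x.b := by
      rw [map_mul, mul_b, b1, mul_b] at a1
      exact add_right_cancel a1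
    refine ⟨w1 - w2, hxb, ?_, ?_⟩
    · intro z
      have := a2 z
      rw [map_mul, mul_F, b2, hxb, mul_F] at this
      have e : (φ x).F z = ((φ x).F z + (x0.F (z + x.b) + w2)) - (x0.F (z + x.b) + w2) := by abel
      rw [e, this]; abel
    · intro z
      have := a3 z
      rw [map_mul, mul_F', b3, hxb, mul_F'] at this
      have e : (φ x).F' z = ((φ x).F' z + (x0.F' (z + x.b) + w2)) - (x0.F' (z + x.b) + w2) := by
        abel
      rw [e, this]; abel
  · exact H.shift1 hsep φ hφ x hx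

/-- existence hypothesis -/
def Ex (p K : ℕ) (χ : B → B →+ T) : Prop := ∀ b, ∃ F, Cond (p ^ (K + 1)) χ b F

/-- every power automorphism comes from a homomorphism `λ : B → T`. -/
theorem Hyp.exists_hom (H : Hyp p K n χ) (hsep : Sep p K χ) (hex : Ex p K χ)
    (φ : MulAut (Grp (p ^ (K + 1)) χ)) (hφ : IsPow φ) (b0 : B) (hb0 : p ^ K • b0 ≠ 0) :
    ∃ l : B →+ T, ∀ x, IsShift (l x.b) x (φ x) := by
  classical
  choose F hF using hex
  let g : B → Grp (p ^ (K + 1)) χ := fun b => ⟨b, F b, F b, hF b, hF b⟩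
  have hg : ∀ b, (g b).b = b := fun b => rfl
  have hsh := fun x => H.shift hsep φ hφ (g b0) hb0 x
  choose w hw using hsh
  have hww : ∀ x y, x.b = y.b → w x = w y := by
    intro x y hxy
    have hfb : (x⁻¹ * y).b = 0 := by rw [mul_b, inv_b, hxy]; abel
    have hfix := H.fix hsep φ hφ (g b0) hb0 (x⁻¹ * y) hfb
    have e1 : φ y = φ x * (x⁻¹ * y) := by
      rw [← hfix, ← map_mul, mul_inv_cancel_left]
      
    have e2 : (φ y).F 0 = (φ x).F 0 + (x⁻¹ * y).F (0 + (φ x).b) := by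
      rw [e1, mul_F]
    have e3 : y.F 0 = x.F 0 + (x⁻¹ * y).F (0 + x.b) := by
      rw [← mul_F, mul_inv_cancel_left]
    rw [(hw y).2.1, (hw x).2.1, (hw x).1, e3] at e2
    have : w y = w x := by
      have := congrArg (fun t => t - (x.F 0 + (x⁻¹ * y).F (0 + x.b))) e2
      have l1 : x.F 0 + (x⁻¹ * y).F (0 + x.b) + w y - (x.F 0 + (x⁻¹ * y).F (0 + x.b)) = w y := by
        abel
      have l2 : x.F 0 + w x + (x⁻¹ * y).F (0 + x.b) - (x.F 0 + (x⁻¹ * y).F (0 + x.b)) = w x := by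
        abel
      rw [l1, l2] at this
      exact this
    exact this.symm
  have hadd : ∀ x y, w (x * y) = w x + w y := by
    intro x y
    have e1 := (hw (x * y)).2.1 0
    rw [map_mul, mul_F, (hw x).2.1, (hw y).2.1, (hw x).1, mul_F] at e1
    have := congrArg (fun t => t - (x.F 0 + y.F (0 + x.b))) e1
    have l1 : x.F 0 + w x + (y.F (0 + x.b) + w y) - (x.F 0 + y.F (0 + x.b)) = w x + w y := by abel
    have l2 : x.F 0 + y.F (0 + x.b) + w (x * y) - (x.F 0 + y.F (0 + x.b)) = w (x * y) := by abel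
    rw [l1, l2] at this
    exact this.symm
  refine ⟨AddMonoidHom.mk' (fun b => w (g b)) ?_, ?_⟩
  · intro a b
    rw [← hadd]
    exact hww _ _ rfl
  · intro x
    have : (AddMonoidHom.mk' (fun b => w (g b)) (by
      intro a b
      rw [← hadd]
      exact hww _ _ rfl) : B →+ T) x.b = w x := by
      show w (g x.b) = w x
      exact hww _ _ rfl
    rw [this]
    exact hw x

/-- the homomorphism vanishes at `e` if some `F` over `e` has a vanishing orbit sum. -/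
theorem hom_van {q : ℕ} {χ : B → B →+ T} (φ : MulAut (Grp q χ)) (hφ : IsPow φ) (l : B →+ T)
    (hl : ∀ x, IsShift (l x.b) x (φ x)) (e : B) (o : ℕ) (ho : addOrderOf e = o) (F : B → T)
    (hF : Cond q χ e F) (y0 : B) (hy : ∑ t ∈ range o, F (y0 + t • e) = 0) : l e = 0 := by
  let x : Grp q χ := ⟨e, F, F, hF, hF⟩
  obtain ⟨t, ht⟩ := Subgroup.mem_zpowers_iff.1 (hφ.mem x)
  have h1 : t • e = e := by
    have h2 := (hl x).1
    rw [← ht, zpow_b] at h2
    exact h2
  have h3 : (o : ℤ) ∣ t - 1 := by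
    rw [← ho]
    apply addOrderOf_dvd_iff_zsmul_eq_zero.2
    rw [sub_smul, h1, one_smul, sub_self]
  obtain ⟨k, hk⟩ := h3
  have ht' : t = (o : ℤ) * k + 1 := by omega
  have h4 : φ x = (x ^ o) ^ k * x := by
    rw [← ht, ht', zpow_add, zpow_one, zpow_mul, zpow_natCast]
  have hb : (x ^ o).b = 0 := by
    rw [pow_b, ← ho]
    exact addOrderOf_nsmul_eq_zero e
  obtain ⟨z1, z2, z3⟩ := zpow_b0 (x ^ o) hb k
  have h5 := (hl x).2.1 y0
  rw [h4, mul_F, z1, z2, pow_F, add_zero] at h5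
  have h6 : ∑ i ∈ range o, x.F (y0 + i • x.b) = 0 := hy
  rw [h6, smul_zero, zero_add] at h5
  have h7 : x.b = e := rfl
  rw [h7] at h5
  have h8 := congrArg (fun t => t - x.F y0) h5
  simp only [sub_self] at h8
  rw [h8]
  abel

/-- in `Q/Z` every element killed by `N` is a multiple of any element of order `N`. -/
theorem T_cyclic {N : ℕ} (hN : 0 < N) {c w : T} (hc : addOrderOf c = N) (hw : N • w = 0) :
    ∃ k : ℤ, w = k • c := by
  obtain ⟨m, _, hgcd, rfl⟩ := (AddCircle.addOrderOf_eq_pos_iff hN).1 hc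
  obtain ⟨l, _, rfl⟩ := (AddCircle.nsmul_eq_zero_iff hN).1 hw
  have hb := Nat.gcd_eq_gcd_ab m N
  rw [hgcd] at hb
  set u := Nat.gcdA m N
  set v := Nat.gcdB m N
  refine ⟨(l : ℤ) * u, ?_⟩
  rw [← AddCircle.coe_zsmul, ← sub_eq_zero, ← AddCircle.coe_sub, AddCircle.coe_eq_zero_iff]
  refine ⟨l * v, ?_⟩
  have hb' : (1 : ℚ) = m * u + N * v := by exact_mod_cast hb
  have hN' : (N : ℚ) ≠ 0 := by exact_mod_cast hN.ne'
  simp only [zsmul_eq_mul, mul_one, Int.cast_mul, Int.cast_natCast]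
  field_simp
  linear_combination (-(l : ℚ)) * hb'

end Pool.Agent.Lead.PAut.Grp
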