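import Pool.Agent.Lead.PAutPower
import Pool.Agent.Lead.PAutInterface

/-!
Shift automorphisms, and the identification of the group of power automorphisms.
-/

open Finset

namespace Pool.Agent.Lead.PAut.Grp

section shift

variable {B : Type} [AddCommGroup B] {p K n : ℕ} {χ : B → B →+ T}

theorem Cond.addConst {q : ℕ} {χ : B → B →+ T} {b : B} {F : B → T} (h : Cond q χ b F) {w : T}
    (hw : q • w = 0) : Cond q χ b (fun z => F z + w) := by
  intro a ha y
  rw [Finset.sum_add_distrib, h a ha y]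
  simp [hw]

/-- the endomorphism shifting by a homomorphism `l : B → T` -/
def shiftHom {q : ℕ} (χ : B → B →+ T) (l : B →+ T) (hl : ∀ b, q • l b = 0) :
    Grp q χ →* Grp q χ where
  toFun x := ⟨x.b, fun z => x.F z + l x.b, fun z => x.F' z + l x.b, 
    Cond.addConst x.hF (hl _), Cond.addConst x.hF' (hl _)⟩
  map_one' := by
    ext z
    · rfl
    · simp
    · simp
  map_mul' x y := by
    ext z
    · rfl
    · simp only [mul_b, mul_F, map_add]; abel
    · simp only [mul_b, mul_F', map_add]; abel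

theorem shiftHom_isShift {q : ℕ} (χ : B → B →+ T) (l : B →+ T) (hl : ∀ b, q • l b = 0)
    (x : Grp q χ) : IsShift (l x.b) x (shiftHom χ l hl x) :=
  ⟨rfl, fun _ => rfl, fun _ => rfl⟩

/-- the automorphism shifting by a homomorphism `l : B → T` -/
def shiftAut {q : ℕ} (χ : B → B →+ T) (l : B →+ T) (hl : ∀ b, q • l b = 0) :
    MulAut (Grp q χ) where
  toFun := shiftHom χ l hl
  invFun := shiftHom χ (-l) (by intro b; simp [hl b])
  left_inv x := by
    ext z
    · rfl
    · simp [shiftHom]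
    · simp [shiftHom]
  right_inv x := by
    ext z
    · rfl
    · simp [shiftHom]
    · simp [shiftHom]
  map_mul' := map_mul (shiftHom χ l hl)

theorem shiftAut_isShift {q : ℕ} (χ : B → B →+ T) (l : B →+ T) (hl : ∀ b, q • l b = 0)
    (x : Grp q χ) : IsShift (l x.b) x (shiftAut χ l hl x) :=
  ⟨rfl, fun _ => rfl, fun _ => rfl⟩

theorem IsShift.unique {q : ℕ} {χ : B → B →+ T} {w : T} {x y y' : Grp q χ} (h : IsShift w x y)
    (h' : IsShift w x y') : y = y' := by
  ext z
  · rw [h.1, h'.1]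
  · rw [h.2.1, h'.2.1]
  · rw [h.2.2, h'.2.2]

/-- a homomorphism killing `B[p^K]` is killed by `p ^ (K+1)`. -/
theorem Hyp.kill (H : Hyp p K n χ) (l : B →+ T) (hl : ∀ b, p ^ K • b = 0 → l b = 0) (b : B) :
    p ^ n • l b = 0 := by
  rw [← map_nsmul]
  apply hl
  rw [← mul_nsmul', ← pow_add]
  exact H.exp b

theorem Hyp.kill' (H : Hyp p K n χ) (l : B →+ T) (hl : ∀ b, p ^ K • b = 0 → l b = 0) (b : B) :
    p ^ (K + 1) • l b = 0 := by
  have : p ^ (K + 1) = p ^ (K + 1 - n) * p ^ n := by
    rw [← pow_add]; congr 1; have := H.hn; omega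
  rw [this, mul_nsmul', H.kill l hl, smul_zero]

theorem Hyp.shift_mem (H : Hyp p K n χ) (l : B →+ T) (hl : ∀ b, p ^ K • b = 0 → l b = 0)
    (x y : Grp (p ^ (K + 1)) χ) (hxy : IsShift (l x.b) x y) : y ∈ Subgroup.zpowers x := by
  by_cases hb : p ^ K • x.b = 0
  · have : y = x := by
      rw [hl _ hb] at hxy
      refine hxy.unique ⟨rfl, ?_, ?_⟩
      · intro z; simp
      · intro z; simp
    rw [this]
    exact Subgroup.mem_zpowers x
  · obtain ⟨c, hc, hc1, hc2⟩ := H.fact x.b hb
    obtain ⟨k, hk⟩ := T_cyclic (pow_pos H.prime.pos n) hc (H.kill l hl x.b)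
    have hob : (x ^ addOrderOf x.b).b = 0 := by
      rw [pow_b]; exact addOrderOf_nsmul_eq_zero _
    obtain ⟨z1, z2, z3⟩ := zpow_b0 (x ^ addOrderOf x.b) hob k
    have : y = (x ^ addOrderOf x.b) ^ k * x := by
      rw [hk] at hxy
      refine hxy.unique ⟨?_, ?_, ?_⟩
      · rw [mul_b, z1, zero_add]
      · intro z
        rw [mul_F, z1, z2, pow_F, hc1 x.b x.F x.hF, add_zero, add_comm]
      · intro z
        rw [mul_F', z1, z3, pow_F', hc1 x.b x.F' x.hF', add_zero, add_comm]
    rw [this]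
    refine mul_mem (zpow_mem (pow_mem (Subgroup.mem_zpowers x) _) _) (Subgroup.mem_zpowers x)

theorem Hyp.shiftAut_isPow (H : Hyp p K n χ) (l : B →+ T) (hl : ∀ b, p ^ K • b = 0 → l b = 0) :
    IsPow (shiftAut χ l (H.kill' l hl)) := by
  intro S
  ext y
  constructor
  · rintro ⟨x, hx, rfl⟩
    have h1 := H.shift_mem l hl x _ (shiftAut_isShift χ l (H.kill' l hl) x)
    exact (Subgroup.zpowers_le.2 hx) h1
  · intro hy
    have hl' : ∀ b, p ^ K • b = 0 → (-l) b = 0 := by
      intro b hb; simp [hl b hb]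
    have h1 := H.shift_mem (-l) hl' y _ (shiftHom_isShift χ (-l) (H.kill' (-l) hl') y)
    refine ⟨shiftHom χ (-l) (H.kill' (-l) hl') y, (Subgroup.zpowers_le.2 hy) h1, ?_⟩
    exact (shiftAut χ l (H.kill' l hl)).apply_symm_apply y

end shift

/-- `ZMod N → Q/Z`, `k ↦ k/N` -/
def E (N : ℕ) : ZMod N →+ T :=
  ZMod.lift N ⟨zmultiplesHom T ((1 / N : ℚ) : T), by
    rw [zmultiplesHom_apply, ← AddCircle.coe_zsmul, AddCircle.coe_eq_zero_iff]
    rcases Nat.eq_zero_or_pos N with h | h
    · subst h; exact ⟨0, by simp⟩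
    · refine ⟨1, ?_⟩
      have : (N : ℚ) ≠ 0 := by exact_mod_cast h.ne'
      simp [this]⟩

theorem E_natCast (N k : ℕ) : E N (k : ZMod N) = ((k / N : ℚ) : T) := by
  have : E N ((k : ℤ) : ZMod N) = ((k / N : ℚ) : T) := by
    unfold E
    rw [ZMod.lift_coe]
    rw [zmultiplesHom_apply, ← AddCircle.coe_zsmul]
    congr 1
    simp [div_eq_mul_inv]
  rwa [Int.cast_natCast] at this

theorem E_inj {N : ℕ} (hN : 0 < N) (x : ZMod N) (hx : E N x = 0) : x = 0 := by
  have : NeZero N := ⟨hN.ne'⟩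
  rw [← ZMod.natCast_zmod_val x, E_natCast, AddCircle.coe_eq_zero_iff] at hx
  obtain ⟨k, hk⟩ := hx
  have hN' : (N : ℚ) ≠ 0 := by exact_mod_cast hN.ne'
  rw [zsmul_eq_mul, mul_one, eq_div_iff hN'] at hk
  have h1 : k * (N : ℤ) = (x.val : ℤ) := by exact_mod_cast hk
  have h2 := ZMod.val_lt x
  have h3 : (x.val : ℤ) = 0 := by
    have h4 : (0 : ℤ) ≤ x.val := by positivity
    have h5 : (x.val : ℤ) < N := by exact_mod_cast h2
    have h6 : k = 0 := by
      by_contra hk0
      rcases lt_or_gt_of_ne hk0 with hlt | hgt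
      · nlinarith
      · nlinarith
    rw [← h1, h6]; simp
  have h7 : x.val = 0 := by exact_mod_cast h3
  exact (ZMod.val_eq_zero x).1 h7

theorem E_surj {N : ℕ} (hN : 0 < N) (w : T) (hw : N • w = 0) : ∃ x : ZMod N, E N x = w := by
  obtain ⟨l, _, rfl⟩ := (AddCircle.nsmul_eq_zero_iff hN).1 hw
  exact ⟨(l : ZMod N), by rw [E_natCast]; simp⟩

variable {p K n r : ℕ} {m : Fin r → ℕ}

/-- the pairing of `∏ ZMod (p ^ m i)` with `B` -/
def pair (p K : ℕ) (m : Fin r → ℕ) (α : ∀ i, ZMod (p ^ m i)) : Bgrp p K m →+ T where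
  toFun b := ∑ i, E (p ^ m i) (α i * ZMod.castHom (pow_dvd_pow p (Nat.le_add_left (m i) K))
    (ZMod (p ^ m i)) (b i))
  map_zero' := by simp
  map_add' b b' := by
    rw [← Finset.sum_add_distrib]
    refine Finset.sum_congr rfl fun i _ => ?_
    rw [Pi.add_apply, map_add, mul_add, map_add]

theorem pair_apply (α : ∀ i, ZMod (p ^ m i)) (b : Bgrp p K m) : pair p K m α b = 
    ∑ i, E (p ^ m i) (α i * ZMod.castHom (pow_dvd_pow p (Nat.le_add_left (m i) K))
    (ZMod (p ^ m i)) (b i)) := rfl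

theorem pair_add (α α' : ∀ i, ZMod (p ^ m i)) : pair p K m (α + α') = pair p K m α + pair p K m α' := by
  refine AddMonoidHom.ext fun b => ?_
  rw [AddMonoidHom.add_apply, pair_apply, pair_apply, pair_apply, ← Finset.sum_add_distrib]
  refine Finset.sum_congr rfl fun i _ => ?_
  rw [Pi.add_apply, add_mul, map_add]

theorem pair_single (α : ∀ i, ZMod (p ^ m i)) (i : Fin r) :
    pair p K m α (Pi.single i 1) = E (p ^ m i) (α i) := by
  rw [pair_apply, Finset.sum_eq_single i]
  · rw [Pi.single_eq_same, map_one, mul_one]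
  · intro j _ hj
    rw [Pi.single_eq_of_ne hj, map_zero, mul_zero, map_zero]
  · intro h
    exact absurd (Finset.mem_univ i) h

theorem cast_zero (hp : p.Prime) {M : ℕ} (x : ZMod (p ^ (K + M))) (hx : p ^ K • x = 0) :
    ZMod.castHom (pow_dvd_pow p (Nat.le_add_left M K)) (ZMod (p ^ M)) x = 0 := by
  have : NeZero (p ^ (K + M)) := ⟨(pow_pos hp.pos _).ne'⟩
  rw [← ZMod.natCast_zmod_val x, nsmul_eq_mul, ← Nat.cast_mul, ZMod.natCast_eq_zero_iff] at hx
  have hx' : p ^ K * p ^ M ∣ p ^ K * x.val := by rw [← pow_add]; exact hx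
  have h1 := Nat.dvd_of_mul_dvd_mul_left (pow_pos hp.pos K) hx'
  rw [← ZMod.natCast_zmod_val x, map_natCast, ZMod.natCast_eq_zero_iff]
  exact h1

theorem pair_kill (hp : p.Prime) (α : ∀ i, ZMod (p ^ m i)) (b : Bgrp p K m)
    (hb : p ^ K • b = 0) : pair p K m α b = 0 := by
  rw [pair_apply]
  refine Finset.sum_eq_zero fun i _ => ?_
  rw [cast_zero hp (b i) (by have := congrFun hb i; simpa using this), mul_zero, map_zero]

/-- homomorphisms on `B` are determined by their values at the basis vectors -/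
theorem hom_ext (hp : p.Prime) (l l' : Bgrp p K m →+ T)
    (h : ∀ i, l (Pi.single i 1) = l' (Pi.single i 1)) : l = l' := by
  refine AddMonoidHom.ext fun b => ?_
  have : ∀ i, NeZero (p ^ (K + m i)) := fun i => ⟨(pow_pos hp.pos _).ne'⟩
  have hb : b = ∑ i, (b i).val • (Pi.single i (1 : ZMod (p ^ (K + m i))) : Bgrp p K m) := by
    funext j
    rw [Finset.sum_apply, Finset.sum_eq_single j]
    · rw [Pi.smul_apply, Pi.single_eq_same, nsmul_eq_mul, mul_one, ZMod.natCast_zmod_val]
    · intro i _ hij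
      rw [Pi.smul_apply, Pi.single_eq_of_ne hij.symm, smul_zero]
    · intro hj
      exact absurd (Finset.mem_univ j) hj
  rw [hb, map_sum, map_sum]
  refine Finset.sum_congr rfl fun i _ => ?_
  rw [map_nsmul, map_nsmul, h i]

theorem single_ord (hp : p.Prime) (i : Fin r) :
    addOrderOf (Pi.single i ((p ^ m i : ℕ) : ZMod (p ^ (K + m i))) : Bgrp p K m) = p ^ K := by
  have h0 : addOrderOf (Pi.single i ((p ^ m i : ℕ) : ZMod (p ^ (K + m i))) : Bgrp p K m) =
      addOrderOf ((p ^ m i : ℕ) : ZMod (p ^ (K + m i))) :=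
    addOrderOf_injective (AddMonoidHom.single (fun i => ZMod (p ^ (K + m i))) i)
      (fun a b hab => Pi.single_injective (M := fun i => ZMod (p ^ (K + m i))) i hab) _
  rw [h0, ZMod.addOrderOf_coe _ (pow_pos hp.pos _).ne']
  rw [Nat.gcd_eq_right (pow_dvd_pow p (Nat.le_add_left (m i) K)), pow_add,
    Nat.mul_div_cancel _ (pow_pos hp.pos _)]

theorem single_ne (hp : p.Prime) (i : Fin r) (hm : 1 ≤ m i) :
    p ^ K • (Pi.single i 1 : Bgrp p K m) ≠ 0 := by
  intro h
  have := congrFun h i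
  rw [Pi.smul_apply, Pi.single_eq_same, nsmul_eq_mul, mul_one, Pi.zero_apply,
    ZMod.natCast_eq_zero_iff] at this
  have h2 := (Nat.pow_dvd_pow_iff_le_right hp.one_lt).1 this
  omega

theorem main (hp : p.Prime) (hr : 0 < r) (hm : ∀ i, 1 ≤ m i)
    {χ : Bgrp p K m → Bgrp p K m →+ T} (D : Data p K n m χ) :
    ∃ f : Multiplicative (∀ i, ZMod (p ^ m i)) →* MulAut (Grp (p ^ (K + 1)) χ),
      Function.Injective f ∧ ∀ φ : MulAut (Grp (p ^ (K + 1)) χ), φ ∈ f.range ↔ IsPow φ := by
  have H := D.hyp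
  let f : Multiplicative (∀ i, ZMod (p ^ m i)) →* MulAut (Grp (p ^ (K + 1)) χ) :=
    { toFun := fun α => shiftAut χ (pair p K m α.toAdd)
        (H.kill' _ (fun b hb => pair_kill hp α.toAdd b hb))
      map_one' := by
        ext x z
        · rfl
        · simp [shiftAut, shiftHom, pair_apply]
        · simp [shiftAut, shiftHom, pair_apply]
      map_mul' := by
        intro α β
        ext x z
        · rfl
        · simp only [shiftAut, shiftHom, toAdd_mul, pair_add]
          simp [add_comm]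
          abel
        · simp only [shiftAut, shiftHom, toAdd_mul, pair_add]
          simp [add_comm]
          abel }
  refine ⟨f, ?_, ?_⟩
  · rw [injective_iff_map_eq_one]
    intro α hα
    have h1 : ∀ b, pair p K m α.toAdd b = 0 := by
      intro b
      obtain ⟨F, hF⟩ := D.ex b
      have h2 : f α ⟨b, F, F, hF, hF⟩ = ⟨b, F, F, hF, hF⟩ := by rw [hα]; rfl
      have h3 := congrFun (congrArg Grp.F h2) 0
      have h4 : F 0 + pair p K m α.toAdd b = F 0 := h3
      simpa using h4
    have h5 : α.toAdd = 0 := by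
      funext i
      have h6 := h1 (Pi.single i 1)
      rw [pair_single] at h6
      exact E_inj (pow_pos hp.pos _) _ h6
    exact h5
  · intro φ
    constructor
    · rintro ⟨α, rfl⟩
      exact H.shiftAut_isPow (pair p K m α.toAdd) (fun b hb => pair_kill hp α.toAdd b hb)
    · intro hφ
      obtain ⟨l, hl⟩ := H.exists_hom D.sep D.ex φ hφ (Pi.single ⟨0, hr⟩ 1)
        (single_ne hp _ (hm _))
      have h1 : ∀ i, p ^ m i • l (Pi.single i 1) = 0 := by
        intro i
        obtain ⟨F, hF, y0, hy⟩ := D.van i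
        have h2 := hom_van φ hφ l hl _ (p ^ K) (single_ord hp i) F hF y0 hy
        have h3 : (Pi.single i ((p ^ m i : ℕ) : ZMod (p ^ (K + m i))) : Bgrp p K m) =
            p ^ m i • (Pi.single i 1 : Bgrp p K m) := by
          rw [← Pi.single_smul, nsmul_eq_mul, mul_one]
        rw [h3, map_nsmul] at h2
        exact h2
      choose α hα using fun i => E_surj (pow_pos hp.pos (m i)) _ (h1 i)
      refine ⟨Multiplicative.ofAdd α, ?_⟩
      have h4 : l = pair p K m α := by
        apply hom_ext hp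
        intro i
        rw [pair_single, hα]
      ext1 x
      have h5 := hl x
      rw [h4] at h5
      exact (shiftAut_isShift χ (pair p K m α) _ x).unique h5

/-- the structure theorem in the form used here -/
theorem structure_thm (p : ℕ) [Fact p.Prime] (A : Type) [CommGroup A] [Finite A]
    (hA : IsPGroup p A) : ∃ (r : ℕ) (m : Fin r → ℕ), (∀ i, 1 ≤ m i) ∧
      Nonempty (A ≃* Multiplicative (∀ i, ZMod (p ^ m i))) := by
  classical
  obtain ⟨ι, _, n, hn1, ⟨e⟩⟩ := CommGroup.equiv_prod_multiplicative_zmod_of_finite A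
  have hk : ∀ i, ∃ k, n i = p ^ k := by
    intro i
    obtain ⟨k, hk⟩ := IsPGroup.iff_orderOf.1 hA
      (e.symm (Pi.mulSingle i (Multiplicative.ofAdd 1)))
    refine ⟨k, ?_⟩
    rw [← hk, MulEquiv.orderOf_eq, orderOf_piMulSingle, orderOf_ofAdd_eq_addOrderOf,
      ZMod.addOrderOf_one]
  choose k hk using hk
  obtain rfl : n = fun i => p ^ k i := funext hk
  let E := Fintype.equivFin ι
  refine ⟨Fintype.card ι, fun j => k (E.symm j), ?_, ⟨?_⟩⟩
  · intro j
    by_contra h
    simp only [not_le, Nat.lt_one_iff] at h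
    have := hn1 (E.symm j)
    simp [h] at this
  · exact e.trans ((MulEquiv.piMultiplicative _).symm.trans
      (AddEquiv.toMultiplicative (RingEquiv.piCongrLeft' (fun i => ZMod (p ^ k i)) E).toAddEquiv))

/-- the final statement, from the existence of the data -/
theorem final (p : ℕ) (hp : p.Prime)
    (hdata : ∀ (r : ℕ) (m : Fin r → ℕ), 0 < r → (∀ i, 1 ≤ m i) →
      ∃ (K n : ℕ) (χ : Bgrp p K m → Bgrp p K m →+ T), Data p K n m χ)
    (A : Type) [CommGroup A] [Finite A] (hA : IsPGroup p A) :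
    ∃ (G : Type) (_ : Group G) (f : A →* MulAut G),
      Function.Injective f ∧
        ∀ φ : MulAut G,
          (φ ∈ f.range ↔ ∀ H : Subgroup G, H.map φ.toMonoidHom = H) := by
  have : Fact p.Prime := ⟨hp⟩
  obtain ⟨r, m, hm, ⟨e⟩⟩ := structure_thm p A hA
  rcases Nat.eq_zero_or_pos r with hr | hr
  · subst hr
    have hsub : Subsingleton A := e.toEquiv.subsingleton
    refine ⟨Unit, inferInstance, 1, fun a b _ => Subsingleton.elim a b, ?_⟩
    intro φ
    constructor
    · intro _ H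
      ext x
      constructor
      · rintro ⟨y, hy, _⟩
        have : x = y := Subsingleton.elim _ _
        rwa [this]
      · intro hx
        exact ⟨x, hx, Subsingleton.elim _ _⟩
    · intro _
      refine ⟨1, ?_⟩
      ext
  · obtain ⟨K, n, χ, D⟩ := hdata r m hr hm
    obtain ⟨f, hf, hf'⟩ := main hp hr hm D
    refine ⟨Grp (p ^ (K + 1)) χ, inferInstance, f.comp e.toMonoidHom, ?_, ?_⟩
    · exact hf.comp e.injective
    · intro φ
      have h1 := hf' φ
      have h2 : φ ∈ (f.comp e.toMonoidHom).range ↔ φ ∈ f.range := by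
        constructor
        · rintro ⟨a, rfl⟩
          exact ⟨e a, rfl⟩
        · rintro ⟨a, rfl⟩
          exact ⟨e.symm a, by simp⟩
      rw [h2, h1]
      rfl

end Pool.Agent.Lead.PAut.Grp
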